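import Pool.Agent.Helper649.BilT
import Pool.Agent.Helper649.BilU
import Pool.Agent.Helper649.GeoF

set_option autoImplicit false

namespace Pool.Agent.Results.MP_71b62d_an.TreschevBilliard

open Pool.Agent.Helper649.Billiard MeasureTheory

/-- The Diophantine condition on the rotation angle `β`:
`|exp (i k β) - 1| ≥ 1 / (Γ k ^ 2)` for all nonzero integers `k` and some constant `Γ`. -/
def Dioph (β : ℝ) : Prop :=
  ∃ Γ : ℝ, ∀ k : ℤ, k ≠ 0 → 1 ≤ Γ * (k : ℝ) ^ 2 * ‖Complex.exp ((k * β : ℝ) * Complex.I) - 1‖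

/-- Almost every angle, and the explicit angle `2 π √2`, is Diophantine. For every Diophantine
angle `β` there is a billiard table `Ω` with the symmetry of an ellipse such that the square of the
billiard map is, near the two-periodic orbit on the `y`-axis, smoothly conjugate to the rigid
rotation through the angle `β`. -/
theorem result :
    (∀ᵐ β : ℝ, Dioph β) ∧ Dioph (2 * Real.pi * Real.sqrt 2) ∧
    ∀ β : ℝ, Dioph β → ∃ (Ω : Set ℂ) (γ : ℝ → ℂ),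
      IsTable Ω γ ∧ EllipseSymm Ω ∧
      (∀ ℓ : OLine, (pts ℓ ∩ Ω).Nonempty →
        Reflects Ω γ ℓ (billiard Ω γ ℓ) ∧ (∀ ℓ' : OLine, Reflects Ω γ ℓ ℓ' → ℓ' = billiard Ω γ ℓ) ∧
        (pts (billiard Ω γ ℓ) ∩ Ω).Nonempty) ∧
      billiard Ω γ (Circle.exp (Real.pi / 2), 0) = (Circle.exp (-(Real.pi / 2)), 0) ∧
      billiard Ω γ (Circle.exp (-(Real.pi / 2)), 0) = (Circle.exp (Real.pi / 2), 0) ∧
      ∃ h : OpenPartialHomeomorph OLine ℂ,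
        (∀ ℓ ∈ h.source, (pts ℓ ∩ Ω).Nonempty) ∧
        (Circle.exp (Real.pi / 2), (0 : ℝ)) ∈ h.source ∧
        h (Circle.exp (Real.pi / 2), (0 : ℝ)) = 0 ∧
        (∀ ℓ ∈ h.source, billiard Ω γ (billiard Ω γ ℓ) ∈ h.source ∧
          h (billiard Ω γ (billiard Ω γ ℓ)) = Complex.exp (β * Complex.I) * h ℓ) ∧
        ContDiffOn ℝ (⊤ : ℕ∞) (fun x : ℝ × ℝ => h (Circle.exp x.1, x.2))
          {x | (Circle.exp x.1, x.2) ∈ h.source} ∧
        ∃ g : ℂ → ℝ × ℝ, ContDiffOn ℝ (⊤ : ℕ∞) g h.target ∧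
          ∀ z ∈ h.target, h.symm z = (Circle.exp (g z).1, (g z).2) := by
  refine ⟨Pool.Agent.Helper649.Bil.ae_dioph, Pool.Agent.Helper649.Bil.dioph_example, ?_⟩
  rintro β ⟨Γ, hΓ⟩
  obtain ⟨C, hC⟩ := Pool.Agent.Helper649.Bil.cst_of_beta hΓ
  obtain ⟨μ0, h0, h1, hmain⟩ := Pool.Agent.Helper649.Bil.main_an C (by norm_num : (0 : ℝ) < 1 / 2)
  obtain ⟨q, l, S⟩ := hmain μ0 h0 h1 le_rfl
  obtain ⟨Ω, γ, hT, hE, hud, hdu, h, hz, hz0, hconj, hsm, hg⟩ :=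
    Pool.Agent.Helper649.Bil.local_conj S le_rfl
  have hC' : (C.wμ μ0 h0 h1).ν ^ 4 = Complex.exp (β * Complex.I) := hC
  have hb : ∀ ℓ : OLine, (pts ℓ ∩ Ω).Nonempty → Reflects Ω γ ℓ (billiard Ω γ ℓ) := by
    intro ℓ hm
    obtain ⟨ℓ', h2⟩ := Reflects.exists hT hm
    rw [billiard_eq hT h2]; exact h2
  refine ⟨Ω, γ, hT, hE, ?_, billiard_eq hT hud, billiard_eq hT hdu, h, ?_, hz, hz0, ?_, hsm, hg⟩
  · intro ℓ hm
    have h2 := hb ℓ hm
    exact ⟨h2, fun ℓ' h3 => Reflects.unique hT h3 h2, Reflects.meets' hT h2⟩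
  · intro ℓ hl
    obtain ⟨ℓ', ℓ'', h2, -⟩ := hconj ℓ hl
    exact Reflects.meets hT h2
  · intro ℓ hl
    obtain ⟨ℓ', ℓ'', h2, h3, h4, h5⟩ := hconj ℓ hl
    rw [billiard_eq hT h2, billiard_eq hT h3]
    exact ⟨h4, by rw [h5, hC']⟩

end Pool.Agent.Results.MP_71b62d_an.TreschevBilliard
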